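import Pool.Agent.H463.KD.All

/-!
# The joint law of the 2-part of the strong conjecture of Birch and Swinnerton-Dyer for the quadratic
# twists of `X₀(49)` over `ℚ(√-7)`

`K = ℚ(√-7)` with ring of integers `O = ℤ[a]`, `a² = a - 2`, so that `2 a - 1 = √-7`.  For `J ∈ O` put
`D = 1 + 4 J` and suppose that `√-7 D` is squarefree.  `E_D` is the quadratic twist by `D` of
`X₀(49) : y² + x y = x³ - x² - 2 x - 1`.  `TwoPart J` says that `E_D(K)` is finite, that the 2-primary part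
of `Ш(E_D/K)` is trivial, that `L(E_D/K, s)` is entire with `L(E_D/K, 1) ≠ 0`, and that the quotient
`L(E_D/K, 1) √|disc K| #E_D(K)_tors² / (Ω ∏ c_v)`, the predicted order of `Ш(E_D/K)`, is a unit at all
the valuations of `ℂ` above `2`.

Let `d_1, …, d_n` be any different elements of `O` with `d_i ≡ 1 mod 4` and `√-7 d_i` squarefree.  Among
the `D ≡ 1 mod 4` with `√-7 D` squarefree and `D` prime to all the `d_i`, ordered by their norm, the
proportion of those for which the 2-part of the conjecture holds (with both sides units at `2`) for all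
the `n` curves `E_{D d_1}, …, E_{D d_n}` is exactly `c ^ n`, `c = ∏_{i ≥ 1} (1 - 2^{-i}) = 0.2887...`.
So the events are independent, and for `n = 1`, `d_1 = 1`: the 2-part holds in this way for
exactly `28.87…%` of all the twists `E_D`.
-/

set_option autoImplicit false

namespace Pool.Agent.Results.MP_9ab903_nt.JointLawX49

open NumberField IsDedekindDomain Filter

/-- The quadratic twist `E_D : y² + x y = x³ - (1 + 3 J) x² - 2 D² x - D³` by `D = 1 + 4 J` of the curve
`X₀(49) : y² + x y = x³ - x² - 2 x - 1`. -/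
noncomputable def curve {K : Type} [Field K] [NumberField K] (J : 𝓞 K) : WeierstrassCurve K :=
  ⟨1, -(1 + 3 * (J : K)), 0, -2 * (1 + 4 * (J : K)) ^ 2, -(1 + 4 * (J : K)) ^ 3⟩

open scoped Classical in
/-- The equation `E` is minimal at every finite place `v`, and `c v` is the Tamagawa number of `E` at
`v`: the index in `E(K_v)` of the subgroup of the points of nonsingular reduction. -/
def IsTamagawa {K : Type} [Field K] [NumberField K] (E : WeierstrassCurve K)
    (c : HeightOneSpectrum (𝓞 K) → ℕ) : Prop :=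
  (∀ v : HeightOneSpectrum (𝓞 K),
    (E.baseChange (v.adicCompletion K)).IsMinimal (v.adicCompletionIntegers K) ∧
    ∃ H : AddSubgroup (E.baseChange (v.adicCompletion K)).toAffine.Point,
      (∀ P, P ∈ H ↔ Pool.Agent.Y696.NonsingRed Valued.v (E.baseChange (v.adicCompletion K)) P) ∧
      H.index = c v) ∧
  {v | c v ≠ 1}.Finite

/-- `Λ` is the lattice of periods of the differential `dx / (2y + a₁x + a₃)` of the curve `E`, embedded
in the complex numbers by `σ`. -/
def IsPeriodLattice {K : Type} [Field K] (E : WeierstrassCurve K) (σ : K →+* ℂ)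
    (Λ : PeriodPair) : Prop :=
  Λ.g₂ = σ E.c₄ / 12 ∧ Λ.g₃ = σ E.c₆ / 216

/-- Twice the area of a fundamental parallelogram of the lattice. -/
noncomputable def period (Λ : PeriodPair) : ℝ := 2 * |((starRingEnd ℂ) Λ.ω₁ * Λ.ω₂).im|

/-- `L` is the entire continuation of the `L`-series of `E`. -/
def IsLFunction {K : Type} [Field K] [NumberField K] (E : WeierstrassCurve K) (L : ℂ → ℂ) : Prop :=
  Differentiable ℂ L ∧ ∀ s : ℂ, 3 / 2 < s.re →
    LSeriesSummable ((fun n : ℤ => (n : ℂ)) ∘ E.LFunction) s ∧ L s = E.LSeries s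

open scoped Classical in
/-- `L(E/K, 1) √|disc K| #E(K)_tors² / (Ω ∏ c_v)` for a curve `E` over an imaginary quadratic field
`K`: if the rank is `0`, the conjecture says that this is the order of `Ш(E/K)`. -/
noncomputable def quotient {K : Type} [Field K] [NumberField K] (E : WeierstrassCurve K)
    (L : ℂ → ℂ) (c : HeightOneSpectrum (𝓞 K) → ℕ) (Λ : PeriodPair) : ℂ :=
  L 1 * (Real.sqrt |(discr K : ℝ)| : ℝ) *
    (Nat.card (AddCommGroup.torsion E.toAffine.Point) : ℂ) ^ 2 /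
      ((period Λ : ℂ) * ((∏ᶠ v, c v : ℕ) : ℂ))

/-- The 2-part of the conjecture for `E_D`, `D = 1 + 4 J`, both sides of the formula being units at `2`:
`E_D(K)` is finite, the 2-primary part of `Ш(E_D/K)` is trivial, the `L`-function is entire and does not
vanish at `1`, and the predicted order of `Ш(E_D/K)` is a unit at all the valuations above `2`. -/
def TwoPart {K : Type} [Field K] [NumberField K] (J : 𝓞 K) : Prop :=
  Finite (curve J).toAffine.Point ∧
  (∀ (n : ℕ) (x : Pool.Agent.TH841.NF.D.Sha (curve J)), 2 ^ n • x = 0 → x = 0) ∧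
  ∃ (L : ℂ → ℂ) (c : HeightOneSpectrum (𝓞 K) → ℕ),
    IsLFunction (curve J) L ∧ IsTamagawa (curve J) c ∧ L 1 ≠ 0 ∧
    ∀ σ : K →+* ℂ, (∃ Λ : PeriodPair, IsPeriodLattice (curve J) σ Λ) ∧
      ∀ Λ : PeriodPair, IsPeriodLattice (curve J) σ Λ →
        ∀ (Γ : Type) [LinearOrderedCommGroupWithZero Γ] (w : Valuation ℂ Γ), w 2 < 1 →
          w (quotient (curve J) L c Λ) = 1

/-- `D ≡ 1 mod 4` and `√-7 D` is squarefree. -/
def Fam {K : Type} [Field K] [NumberField K] (a D : 𝓞 K) : Prop :=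
  4 ∣ D - 1 ∧ Squarefree ((2 * a - 1) * D)

/-- The 2-part of the conjecture holds for `E_D`. -/
def Holds {K : Type} [Field K] [NumberField K] (D : 𝓞 K) : Prop :=
  ∃ J : 𝓞 K, D = 1 + 4 * J ∧ TwoPart J

/-- The `D` of the family of norm at most `X` which are prime to all the `d i`. -/
def Box {K : Type} [Field K] [NumberField K] {ι : Type} (a : 𝓞 K) (d : ι → 𝓞 K) (X : ℕ) :
    Set (𝓞 K) :=
  {D | Fam a D ∧ (∀ i, IsCoprime D (d i)) ∧ (Algebra.norm ℤ D).natAbs ≤ X}

section proof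

variable {K : Type} [Field K] [NumberField K]

open Pool.Agent.Y698 Pool.Agent.H463.KD
open Pool.Agent.H463.QE (gX)

theorem two_iff {e : RR ≃+* 𝓞 K} {a : 𝓞 K} (hea : e aR = a)
    (hem : ∀ x, Pool.Agent.R426.QC.em e x = ((e x : 𝓞 K) : K)) {S : Finset PK}
    (hu : ∑ p ∈ S, YK.u p = 0) : Holds (e (pS S)) ↔ YK.Gd S := by
  classical
  rw [gd_gX hu]
  obtain ⟨J, hJ⟩ := m4_S hu
  have hf := fs_vS hu
  have hDp : (1 + 4 * J : RR) = ∏ ϖ ∈ vS S, ϖ := by rw [← hJ, pS_eq]
  have hsq' : Squarefree (Pool.Agent.Y698.fR * (1 + 4 * J)) := by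
    rw [← hJ]
    exact sqf_pS S
  have hsq : Squarefree ((2 * a - 1) * (1 + 4 * e J)) :=
    Pool.Agent.H463.QE.sqf_tr' e hea hsq'
  have hDe : e (pS S) = 1 + 4 * e J := by rw [hJ, map_add, map_one, map_mul, map_ofNat]
  have hcr : curve (e J) = Pool.Agent.Y698.EX K (Pool.Agent.R426.QC.em e J) := by
    rw [hem]
    rfl
  obtain ⟨h1, h2⟩ := Pool.Agent.H463.QE.finalX e hea hsq
  obtain ⟨h3, L, h4, h5, h6⟩ := h2
  obtain ⟨h7, h8⟩ := Pool.Agent.H463.QE.tamX e hea hsq
  obtain ⟨P, hP, -⟩ := h1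
  have hN : (Finite (curve (e J)).toAffine.Point ∧
      ∀ (n : ℕ) (x : Pool.Agent.TH841.NF.D.Sha (curve (e J))), 2 ^ n • x = 0 → x = 0) ↔
      gX (vS S) ≠ 0 := by
    have h9 := h3 P hP
    rw [hcr]
    refine h9.trans ?_
    have hP' : Pool.Agent.H463.QE.IsP (e aR) (e (1 + 4 * J)) P := by
      rw [hea, map_add, map_one, map_mul, map_ofNat]
      exact hP
    rw [Pool.Agent.H463.QE.det_MP e hf hDp hP']
  constructor
  · rintro ⟨J', hJ', h⟩
    have hJJ : J' = e J := by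
      have h10 : (1 : 𝓞 K) + 4 * J' = 1 + 4 * e J := hJ'.symm.trans hDe
      have h11 : (4 : 𝓞 K) * J' = 4 * e J := add_left_cancel h10
      exact mul_left_cancel₀ (by norm_num) h11
    subst hJJ
    exact hN.1 ⟨h.1, h.2.1⟩
  · intro hg
    have hNN := hN.2 hg
    refine ⟨e J, hDe, hNN.1, hNN.2, L, Pool.Agent.R426.QC.cE e (1 + 4 * J), ?_, ?_, ?_,
      fun σ => ⟨?_, fun Λ hΛ Γ _ w hw => ?_⟩⟩
    · rw [hcr]
      exact ⟨h4, h5⟩
    · rw [hcr]
      exact ⟨fun v => h7 v, h8⟩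
    · rw [hcr] at hNN
      exact Pool.Agent.H463.QE.ne_zeroX e hea hsq h6 hNN
    · rw [hcr]
      exact Pool.Agent.H463.QE.perX e hea hsq σ
    · rw [hcr] at hΛ hNN ⊢
      exact ((h6 σ Λ hΛ.1 hΛ.2 Γ w hw).2).2 hNN

end proof

/-- **Main theorem.**  Let `K` be a quadratic field that contains `a` with `a² = a - 2` (so
`K = ℚ(√-7)`), and let `d i`, `i ∈ ι`, be finitely many different elements of its ring of integers with
`d i ≡ 1 mod 4` and `√-7 d i` squarefree.  The sets `Box a d X` are finite, they have at least `c X`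
elements with `c > 0`, and the proportion of the `D` in `Box a d X` such that the 2-part of the conjecture
of Birch and Swinnerton-Dyer holds (both sides of the formula being units at `2`) for all the curves
`E_{D d i}`, `i ∈ ι`, tends to `(∏_{j ≥ 1} (1 - 2^{-j})) ^ #ι`, where `0.2887 < ∏_{j ≥ 1} (1 - 2^{-j}) < 0.2889`. -/
theorem result (K : Type) [Field K] [NumberField K] (hK : Module.finrank ℚ K = 2) (a : 𝓞 K)
    (ha : a ^ 2 = a - 2) (ι : Type) [Fintype ι] (d : ι → 𝓞 K) (hinj : Function.Injective d)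
    (hd : ∀ i, Fam a (d i)) :
    (∀ X : ℕ, (Box a d X).Finite) ∧
    (∃ c : ℝ, 0 < c ∧ ∀ᶠ X : ℕ in atTop, c * X ≤ ((Box a d X).ncard : ℝ)) ∧
    Tendsto (fun X : ℕ => ({D | D ∈ Box a d X ∧ ∀ i, Holds (D * d i)}.ncard : ℝ) /
      ((Box a d X).ncard : ℝ)) atTop
      (nhds ((∏' j : ℕ, (1 - (1 / 2 : ℝ) ^ (j + 1))) ^ Fintype.card ι)) ∧
    0.2887 < (∏' j : ℕ, (1 - (1 / 2 : ℝ) ^ (j + 1))) ∧
    (∏' j : ℕ, (1 - (1 / 2 : ℝ) ^ (j + 1))) < 0.2889 := by
  obtain ⟨e, hea, hem⟩ := Pool.Agent.H463.QE.exists_e hK ha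
  obtain ⟨h1, h2, h3⟩ := Pool.Agent.H463.KD.out_law e Pool.Agent.H463.KD.t_LAW
    Pool.Agent.H463.KD.ax_YK Pool.Agent.H962.KD.t_LOW hea d hinj hd Holds
    fun S hu => two_iff hea hem hu
  refine ⟨h1, h2, ?_, Pool.Agent.H463.KD.c2_bounds.1, Pool.Agent.H463.KD.c2_bounds.2⟩
  refine h3.congr fun X => ?_
  congr 3
  ext D
  unfold Box
  simp only [Set.mem_ofPred_eq]
  exact ⟨fun h => ⟨⟨h.1, h.2.1, h.2.2.1⟩, h.2.2.2⟩, fun h => ⟨h.1.1, h.1.2.1, h.1.2.2, h.2⟩⟩

end Pool.Agent.Results.MP_9ab903_nt.JointLawX49
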