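import Mathlib
import Pool.Agent.H463.PT.All

/-!
# The 2-part of the strong conjecture of Birch and Swinnerton-Dyer for the twists by primes of every
# quadratic twist of `X₀(49)` over `ℚ(√-7)`: the exact proportion

`K = ℚ(√-7)` with ring of integers `O = ℤ[a]`, `a² = a - 2`.  For `J ∈ O` put `D = 1 + 4 J` and suppose
that `√-7 D` is squarefree.  `E_D` is the quadratic twist by `D` of
`X₀(49) : y² + x y = x³ - x² - 2 x - 1`.  We twist `E_D` further, by the prime elements
`π = 1 + 4 x` of `O`, ordered by their norms.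

Let `P` be the set of the primes dividing `√-7 D`, `n` their number, and `M` the explicit matrix over
`𝔽₂` of the symbols between them.  We prove that the 2-part of the conjecture (rank `0`,
`Ш[2^∞] = 0`, `L(1) ≠ 0`, and both sides of the formula are units at `2`) holds for `E_{Dπ}` if and
only if `M + diag(t)` is invertible, `t_p = [p / π] + [-1 / p]`, and that the proportion of the `π` for
which it holds is exactly `N / 2^n`, where `N` is the number of the diagonal matrices `U` with
`M + U` invertible.  The number `N` is always odd: so the proportion is never `0` and never `1`.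
-/

set_option autoImplicit false

namespace Pool.Agent.Results.MP_9ab903_nt.PrimeTwistsOfEveryTwist

open NumberField IsDedekindDomain Filter Topology

/-- The quadratic twist `E_D : y² + x y = x³ - (1 + 3 J) x² - 2 D² x - D³` by `D = 1 + 4 J` of the curve
`X₀(49) : y² + x y = x³ - x² - 2 x - 1`. -/
noncomputable def curve {K : Type} [Field K] [NumberField K] (J : 𝓞 K) : WeierstrassCurve K :=
  ⟨1, -(1 + 3 * (J : K)), 0, -2 * (1 + 4 * (J : K)) ^ 2, -(1 + 4 * (J : K)) ^ 3⟩

open scoped Classical in
/-- The equation `E` is minimal at every finite place `v`, and `c v` is the Tamagawa number of `E` at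
`v`: the index in `E(K_v)` of the subgroup of the points of nonsingular reduction. -/
def IsTamagawa {K : Type} [Field K] [NumberField K] (E : WeierstrassCurve K)
    (c : HeightOneSpectrum (𝓞 K) → ℕ) : Prop :=
  (∀ v : HeightOneSpectrum (𝓞 K),
    (E.baseChange (v.adicCompletion K)).IsMinimal (v.adicCompletionIntegers K) ∧
    ∃ H : AddSubgroup (E.baseChange (v.adicCompletion K)).toAffine.Point,
      (∀ P, P ∈ H ↔ Pool.Agent.Y696.NonsingRed Valued.v (E.baseChange (v.adicCompletion K)) P) ∧
      H.index = c v) ∧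
  {v | c v ≠ 1}.Finite

/-- `Λ` is the lattice of periods of the differential `dx / (2y + a₁x + a₃)` of the curve `E`, embedded
in the complex numbers by `σ`. -/
def IsPeriodLattice {K : Type} [Field K] (E : WeierstrassCurve K) (σ : K →+* ℂ)
    (Λ : PeriodPair) : Prop :=
  Λ.g₂ = σ E.c₄ / 12 ∧ Λ.g₃ = σ E.c₆ / 216

/-- Twice the area of a fundamental parallelogram of the lattice. -/
noncomputable def period (Λ : PeriodPair) : ℝ := 2 * |((starRingEnd ℂ) Λ.ω₁ * Λ.ω₂).im|

/-- `L` is the entire continuation of the `L`-series of `E`. -/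
def IsLFunction {K : Type} [Field K] [NumberField K] (E : WeierstrassCurve K) (L : ℂ → ℂ) : Prop :=
  Differentiable ℂ L ∧ ∀ s : ℂ, 3 / 2 < s.re →
    LSeriesSummable ((fun n : ℤ => (n : ℂ)) ∘ E.LFunction) s ∧ L s = E.LSeries s

open scoped Classical in
/-- `L(E/K, 1) √|disc K| #E(K)_tors² / (Ω ∏ c_v)` for a curve `E` over an imaginary quadratic field
`K`: if the rank is `0`, the conjecture says that this is the order of `Ш(E/K)`. -/
noncomputable def quotient {K : Type} [Field K] [NumberField K] (E : WeierstrassCurve K)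
    (L : ℂ → ℂ) (c : HeightOneSpectrum (𝓞 K) → ℕ) (Λ : PeriodPair) : ℂ :=
  L 1 * (Real.sqrt |(discr K : ℝ)| : ℝ) *
    (Nat.card (AddCommGroup.torsion E.toAffine.Point) : ℂ) ^ 2 /
      ((period Λ : ℂ) * ((∏ᶠ v, c v : ℕ) : ℂ))

/-- `E(K)` is finite and the 2-primary part of `Ш(E/K)` is trivial. -/
def NoTwoPart {K : Type} [Field K] [NumberField K] (E : WeierstrassCurve K) : Prop :=
  Finite E.toAffine.Point ∧
    ∀ (n : ℕ) (x : Pool.Agent.TH841.NF.D.Sha E), 2 ^ n • x = 0 → x = 0

/-- The 2-part of the strong conjecture holds for `E`, in the following form: `E(K)` is finite,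
`Ш(E/K)[2^∞] = 0`, the `L`-series has an entire continuation which does not vanish at `1`, and
`quotient` is a unit at every valuation of `ℂ` above `2`. -/
def TwoPart {K : Type} [Field K] [NumberField K] (E : WeierstrassCurve K) : Prop :=
  NoTwoPart E ∧ ∃ (L : ℂ → ℂ) (c : HeightOneSpectrum (𝓞 K) → ℕ),
    IsLFunction E L ∧ IsTamagawa E c ∧ L 1 ≠ 0 ∧
    ∀ σ : K →+* ℂ, (∃ Λ : PeriodPair, IsPeriodLattice E σ Λ) ∧
      ∀ Λ : PeriodPair, IsPeriodLattice E σ Λ →
        ∀ (Γ : Type) [LinearOrderedCommGroupWithZero Γ] (w : Valuation ℂ Γ), w 2 < 1 →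
          w (quotient E L c Λ) = 1

open scoped Classical in
/-- `0` if `x` is a square modulo `p` and `1` if it is not. -/
noncomputable def symbol {R : Type} [CommRing R] (p x : R) : ZMod 2 :=
  if ∃ y : R, p ∣ y ^ 2 - x then 0 else 1

/-- `P` is the set of the prime divisors of `√-7 D` (one generator `≡ 1 mod a²` for each). -/
def IsPrimes {R : Type} [CommRing R] (a D : R) (P : Finset R) : Prop :=
  ∀ p : R, p ∈ P ↔ Prime p ∧ p ∣ (2 * a - 1) * D ∧ a ^ 2 ∣ p - 1

open scoped Classical in
/-- The matrix over `𝔽₂`, with rows and columns indexed by the primes: the entry at `(p, q)`, `p ≠ q`,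
is the symbol of `p` modulo `q`; the entry at `(p, p)` is the sum of the other entries of the row
and of the symbol of `-1` modulo `p`. -/
noncomputable def matrix {R : Type} [CommRing R] (P : Finset R) : Matrix P P (ZMod 2) :=
  Matrix.of fun p q => if p = q then symbol (p : R) (-1) + ∑ r ∈ P.erase (p : R), symbol r (p : R)
    else symbol (q : R) (p : R)

/-- The matrix of the twist by the prime element `π ≡ 1 mod 4`. -/
noncomputable def twistMatrix {R : Type} [CommRing R] [DecidableEq R] (P : Finset R) (π : R) :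
    Matrix P P (ZMod 2) :=
  matrix P + Matrix.diagonal fun p : P => symbol π (p : R) + symbol (p : R) (-1)

/-- The number of the diagonal matrices whose sum with the matrix is invertible. -/
noncomputable def number {R : Type} [CommRing R] [DecidableEq R] (P : Finset R) : ℕ :=
  Nat.card {u : P → ZMod 2 // (matrix P + Matrix.diagonal u).det ≠ 0}

/-- The number of the `x ∈ O` such that `1 + 4 x` is prime of norm `≤ X` and `x` has the property. -/
noncomputable def count {K : Type} [Field K] [NumberField K] (G : 𝓞 K → Prop) (X : ℕ) : ℕ :=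
  {x : 𝓞 K | (Algebra.norm ℤ (1 + 4 * x)).natAbs ≤ X ∧ Prime (1 + 4 * x) ∧ G x}.ncard

open scoped Classical in
/-- **Main theorem.**  Let `K` be a quadratic field that contains `a` with `a² = a - 2` (so
`K = ℚ(√-7)`), let `J` be an integer of `K` such that `√-7 D`, `D = 1 + 4 J`, is squarefree, and let
`P` be the set of the prime divisors of `√-7 D`.  Then:

* for every prime element `π = 1 + 4 x` outside `P` the 2-part of the conjecture holds for
  `E_{Dπ}` over `K` if and only if `E_{Dπ}(K)` is finite and `Ш(E_{Dπ}/K)[2^∞] = 0`, if and only if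
  the matrix `twistMatrix P π` is invertible;
* `number P` is odd, and the proportion of the `x` for which the 2-part of the conjecture holds
  for `E_{Dπ}`, among all the `x` such that `π = 1 + 4 x` is prime of norm `≤ X`, tends to
  `number P / 2 ^ #P`.  There are infinitely many such `x`. -/
theorem result (K : Type) [Field K] [NumberField K] (hK : Module.finrank ℚ K = 2) (a : 𝓞 K)
    (ha : a ^ 2 = a - 2) (J : 𝓞 K) (hJ : Squarefree ((2 * a - 1) * (1 + 4 * J)))
    (P : Finset (𝓞 K)) (hP : IsPrimes a (1 + 4 * J) P) :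
    (∀ x : 𝓞 K, Prime (1 + 4 * x) → 1 + 4 * x ∉ P →
      (TwoPart (curve (J + x + 4 * J * x)) ↔ NoTwoPart (curve (J + x + 4 * J * x))) ∧
      (NoTwoPart (curve (J + x + 4 * J * x)) ↔ (twistMatrix P (1 + 4 * x)).det ≠ 0)) ∧
    Odd (number P) ∧
    Tendsto (fun X : ℕ => (count (fun x : 𝓞 K => TwoPart (curve (J + x + 4 * J * x))) X : ℝ) /
      (count (fun _ : 𝓞 K => True) X : ℝ)) atTop (𝓝 ((number P : ℝ) / 2 ^ P.card)) ∧
    Tendsto (fun X : ℕ => count (fun x : 𝓞 K => TwoPart (curve (J + x + 4 * J * x))) X)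
      atTop atTop := by
  obtain ⟨e, hea, hem⟩ := Pool.Agent.H463.QE.exists_e hK ha
  obtain ⟨J, rfl⟩ := e.surjective J
  have hkey : ∀ x : 𝓞 K, Prime (1 + 4 * x) → 1 + 4 * x ∉ P →
      (TwoPart (curve (e J + x + 4 * e J * x)) ↔ NoTwoPart (curve (e J + x + 4 * e J * x))) ∧
      (NoTwoPart (curve (e J + x + 4 * e J * x)) ↔
        (Pool.Agent.H463.QE.MP (insert (1 + 4 * x) P)).det ≠ 0) ∧
      (Pool.Agent.H463.QE.MP (insert (1 + 4 * x) P)).det = (twistMatrix P (1 + 4 * x)).det := by
    intro x hx hxP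
    obtain ⟨x, rfl⟩ := e.surjective x
    obtain ⟨h1, h2, h3⟩ := Pool.Agent.H463.PT.twist hea hJ hP hx hxP
    have hJx : e (J + x + 4 * J * x) = e J + e x + 4 * e J * e x := by
      rw [map_add, map_add, map_mul, map_mul, map_ofNat]
    have hcr : curve (e J + e x + 4 * e J * e x) = Pool.Agent.Y698.EX K
        (Pool.Agent.R426.QC.em e (J + x + 4 * J * x)) := by
      rw [← hJx]
      rfl
    obtain ⟨-, h4, L, h5, h6, h7⟩ := Pool.Agent.H463.QE.finalX e hea h1
    obtain ⟨h8, h9⟩ := Pool.Agent.H463.QE.tamX e hea h1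
    have hdet := h4 _ h2
    rw [hcr]
    refine ⟨⟨fun h => h.1, fun hN => ⟨hN, L, Pool.Agent.R426.QC.cE e
      (1 + 4 * (J + x + 4 * J * x)), ⟨h5, h6⟩, ⟨fun v => h8 v, h9⟩, ?_, fun σ => ⟨?_, ?_⟩⟩⟩,
      hdet, h3⟩
    · exact Pool.Agent.H463.QE.ne_zeroX e hea h1 h7 hN
    · exact Pool.Agent.H463.QE.perX e hea h1 σ
    · intro Λ hΛ Γ _ w hw
      exact (h7 σ Λ hΛ.1 hΛ.2 Γ w hw).2.2 hN
  have hG : ∀ x : 𝓞 K, Prime (1 + 4 * x) → 1 + 4 * x ∉ P →
      (TwoPart (curve (e J + x + 4 * e J * x)) ↔
        (Pool.Agent.H463.QE.MP (insert (1 + 4 * x) P)).det ≠ 0) := fun x hx hxP =>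
    (hkey x hx hxP).1.trans (hkey x hx hxP).2.1
  obtain ⟨h1, h2, h3⟩ := Pool.Agent.H463.PT.shareX hea hJ hP hG
  refine ⟨fun x hx hxP => ⟨(hkey x hx hxP).1, ?_⟩, h1, ?_, h3⟩
  · rw [(hkey x hx hxP).2.1, (hkey x hx hxP).2.2]
  · refine h2.congr fun X => ?_
    unfold count
    simp only [and_true]

end Pool.Agent.Results.MP_9ab903_nt.PrimeTwistsOfEveryTwist
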