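import Pool.Agent.H468.RQ.Bsd
import Pool.Agent.H468.RQ.Few
import Pool.Agent.H468.WX.Clt
import Pool.Graph.R_seed8.R425.G.Al

/-!
# The `2`-part of the strong conjecture for `X_0(15)` over real quadratic fields

`E : y² + x y + y = x³ + x² - 10 x - 10` is the curve `X_0(15)`, and `K` runs over the real quadratic
fields whose discriminant `D` is `≡ 1` or `49` modulo `60`, that is, the real quadratic fields with odd
discriminant in which `3` and `5` split; `k` is the number of the prime divisors of `D`.  We prove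

* `L(E/K, 1) √D / Ω_{E/K} = 4^(k - 2) y²` with an integer `y`, and `y` is odd if and only if `D` is good:
  the only divisor `d` of `D` with `(d/5) = 1` and all the Hilbert symbols `(d, D)_p = 1`, `p ∣ D`, is `1`;
* if `D` is good then the full `2`-part of the strong conjecture of Birch and Swinnerton-Dyer holds for
  `E` over `K`, `E(K) = E(ℚ)` has order eight, and `Ш(E/K)[2^∞]` is an elementary abelian `2`-group of
  order `4^(k - 2)`; and, conversely, if the `2`-part of the conjecture holds and `Ш(E/K)[2^∞]` has this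
  order then `D` is good;
* the proportion of the good `D` is exactly `c₂ = ∏ (1 - 2^(-i)) = 0.2887...`, and the order of `Ш(E/K)[2^∞]`
  satisfies a central limit theorem: for every real `y` the proportion of the `D ≤ X` which are good with
  `log_4 #Ш(E/K)[2^∞] ≤ log log X + y √(log log X)` tends to `c₂` times the value at `y` of the distribution
  function of the standard normal law.
-/

set_option autoImplicit false

open NumberField NumberField.InfinitePlace IsDedekindDomain WeierstrassCurve MeasureTheory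
open Filter Topology ProbabilityTheory

namespace Pool.Agent.Results.MP_9ab903_nt.RealQuadraticX15

open scoped Classical

open Pool.Agent.TH841.NF.D (Sha)

/-- The equation `y² + x y + y = x³ + x² - 10 x - 10` of `X_0(15)`. -/
def X15 : WeierstrassCurve ℤ := ⟨1, 1, 1, -10, -10⟩

/-- The curve given by the equation of `W` over the ring `R`. -/
abbrev base (W : WeierstrassCurve ℤ) (R : Type) [CommRing R] : WeierstrassCurve R :=
  W.map (Int.castRingHom R)

/-- The number of the affine points `(x, y)` over the ring `R`. -/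
noncomputable def pts (W : WeierstrassCurve ℤ) (R : Type) [CommRing R] : ℕ :=
  Nat.card {P : R × R // (base W R).toAffine.Equation P.1 P.2}

section

variable {K : Type} [Field K] [NumberField K]

/-- `a_v = N v + 1 - #W(k_v)`, the points over the residue field `k_v` counted with the point at
infinity. -/
noncomputable def a (W : WeierstrassCurve ℤ) (v : HeightOneSpectrum (𝓞 K)) : ℤ :=
  (Ideal.absNorm v.asIdeal : ℤ) - pts W (𝓞 K ⧸ v.asIdeal)

/-- The Euler factor of `L(W/K, s)` at `v` : `(1 - a_v N v^(-s) + N v^(1 - 2 s))⁻¹` if the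
discriminant is a unit at `v`, and `(1 - a_v N v^(-s))⁻¹` otherwise. -/
noncomputable def factor (W : WeierstrassCurve ℤ) (s : ℂ) (v : HeightOneSpectrum (𝓞 K)) : ℂ :=
  (1 - (a W v : ℂ) * (Ideal.absNorm v.asIdeal : ℂ) ^ (-s) +
    if ((W.Δ : ℤ) : 𝓞 K) ∈ v.asIdeal then 0 else (Ideal.absNorm v.asIdeal : ℂ) ^ (1 - 2 * s))⁻¹

/-- The equation is minimal at the finite place `v` of `K`: no change of variables over `K` that
keeps the coefficients integral at `v` decreases the valuation of the discriminant. -/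
def MinimalAt (W : WeierstrassCurve ℤ) (v : HeightOneSpectrum (𝓞 K)) : Prop :=
  ∀ C : VariableChange K, v.valuation K (C • base W K).a₁ ≤ 1 →
    v.valuation K (C • base W K).a₂ ≤ 1 → v.valuation K (C • base W K).a₃ ≤ 1 →
    v.valuation K (C • base W K).a₄ ≤ 1 → v.valuation K (C • base W K).a₆ ≤ 1 →
    v.valuation K (C • base W K).Δ ≤ v.valuation K (base W K).Δ

/-- `E⁰(K_v)`, the group of the points of `W` over the completion `K_v` with nonsingular reduction:
the points `(x, y)` where `x` is not integral, or one of the partial derivatives of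
`y² + a₁ x y + a₃ y - x³ - a₂ x² - a₄ x - a₆` is a unit at `(x, y)`, and the point at infinity. -/
noncomputable def nonsing (W : WeierstrassCurve ℤ) (v : HeightOneSpectrum (𝓞 K)) :
    AddSubgroup (base W (v.adicCompletion K)).toAffine.Point :=
  AddSubgroup.closure {P | ∀ x y h, P = Affine.Point.some x y h →
    1 < Valued.v x ∨ Valued.v (W.a₁ * y - (3 * x ^ 2 + 2 * W.a₂ * x + W.a₄)) = 1 ∨
      Valued.v (2 * y + W.a₁ * x + W.a₃) = 1}

/-- The Tamagawa number `c_v = [E(K_v) : E⁰(K_v)]` of a minimal equation. -/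
noncomputable def c (W : WeierstrassCurve ℤ) (v : HeightOneSpectrum (𝓞 K)) : ℕ :=
  (nonsing W v).index

end

section

variable (K : Type) [Field K] [NumberField K]

/-- The product of the Tamagawa numbers (for an equation that is minimal at all finite places). -/
noncomputable def Tam (W : WeierstrassCurve ℤ) : ℕ := ∏ᶠ v : HeightOneSpectrum (𝓞 K), c W v

/-- The `2`-primary part of the Tate-Shafarevich group over `K`. -/
def Sha2 (W : WeierstrassCurve ℤ) : Set (Sha (base W K)) := {x | ∃ n : ℕ, 2 ^ n • x = 0}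

/-- The torsion subgroup of the group of the points over `K`. -/
def tors (W : WeierstrassCurve ℤ) : Set (base W K).toAffine.Point := {P | ∃ n : ℕ, 0 < n ∧ n • P = 0}

/-- The rank of the group of the points over `K`. -/
noncomputable def rank (W : WeierstrassCurve ℤ) : ℕ := Module.finrank ℤ (base W K).toAffine.Point

end

/-- `4 x³ + b₂ x² + 2 b₄ x + b₆ = (2 y + a₁ x + a₃)²`, where `b₂ = a₁² + 4 a₂`,
`b₄ = 2 a₄ + a₁ a₃`, `b₆ = a₃² + 4 a₆`. -/
def cubic (W : WeierstrassCurve ℤ) {R : Type} [CommRing R] (x : R) : R :=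
  4 * x ^ 3 + W.b₂ * x ^ 2 + 2 * W.b₄ * x + W.b₆

/-- `∫_{W(ℝ)} |ω|` with `ω = dx / (2 y + a₁ x + a₃)`, as an integral over `x`: two real points lie
over each `x` with `cubic x > 0`. -/
noncomputable def realPeriod (W : WeierstrassCurve ℤ) : ℝ :=
  2 * ∫ x in {x : ℝ | 0 < cubic W x}, 1 / √(cubic W x)

/-- `2 ∫_{W(ℂ)} |ω ∧ ω̄|`, where `|ω ∧ ω̄| = du dv` in a local parameter `z = u + i v` with
`dz = ω`, as an integral over `x`: two points lie over a general `x`, and `|ω ∧ ω̄|` is the area
element of the plane of `x` divided by `|cubic x|`. -/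
noncomputable def complexPeriod (W : WeierstrassCurve ℤ) : ℝ := 2 * (2 * ∫ x : ℂ, 1 / ‖cubic W x‖)

/-- The global period `Ω_{E/K}`. -/
noncomputable def Omega (K : Type) [Field K] [NumberField K] (W : WeierstrassCurve ℤ) : ℝ :=
  realPeriod W ^ nrRealPlaces K * complexPeriod W ^ nrComplexPlaces K

/-- `L` is the entire `L`-function of `W` over `K`. -/
def IsL (K : Type) [Field K] [NumberField K] (W : WeierstrassCurve ℤ) (L : ℂ → ℂ) : Prop :=
  Differentiable ℂ L ∧ ∀ s : ℂ, 3 / 2 < s.re → HasProd (factor (K := K) W s) (L s)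

/-- **The `2`-part of the strong conjecture** for `W` over `K` (the equation being minimal) in rank
zero: the `L`-function is entire, its order at `s = 1` is the rank, which is zero, the `2`-primary
part of the Tate-Shafarevich group is finite, and `L(1) √|Disc K| / Ω` is a rational number with the
same `2`-adic valuation as `#Ш[2^∞] Tam / #tors²`. -/
structure TwoPart (K : Type) [Field K] [NumberField K] (W : WeierstrassCurve ℤ) : Prop where
  rank : rank K W = 0
  sha : (Sha2 K W).Finite
  formula : ∃ L : ℂ → ℂ, IsL K W L ∧ analyticOrderAt L 1 = 0 ∧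
    ∃ r : ℚ, L 1 * √|(discr K : ℝ)| = r * Omega K W ∧ r ≠ 0 ∧
      padicValRat 2 r = padicValRat 2
        ((Nat.card (Sha2 K W) * Tam K W : ℚ) / (Nat.card (tors K W) : ℚ) ^ 2)

/-- The family of the discriminants: the squarefree numbers `≡ 1` or `49` modulo `60`. -/
def Family (D : ℕ) : Prop := Squarefree D ∧ (D % 60 = 1 ∨ D % 60 = 49)

/-- `D` is good: the only positive divisor `d` of `D` with all the Hilbert symbols `(d, D)_p = 1`,
`p ∣ D`, and `(d/5) = 1` is `1`. -/
def IsGood (D : ℕ) : Prop := ∀ d : ℕ, d ∣ D →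
  (∀ p : ℕ, p.Prime → p ∣ D → ¬ p ∣ d → jacobiSym d p = 1) →
  (∀ p : ℕ, p.Prime → p ∣ d → jacobiSym (-((D / d : ℕ) : ℤ)) p = 1) →
  jacobiSym d 5 = 1 → d = 1

/-- The `2`-part of the strong conjecture holds for `X_0(15)` over `K`, and the `2`-primary part of the
Tate-Shafarevich group over `K` is an elementary abelian group of order `4^(k - 2)`. -/
def FullTwoPart (K : Type) [Field K] [NumberField K] (k : ℕ) : Prop :=
  TwoPart K X15 ∧ (∀ x ∈ Sha2 K X15, x + x = 0) ∧ 16 * Nat.card (Sha2 K X15) = 4 ^ k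

/-- The property of `D` : `FullTwoPart` for the quadratic field of discriminant `D`, `k` being the number
of the prime divisors of `D`. -/
def Holds (D : ℕ) : Prop := ∀ (K : Type) [Field K] [NumberField K], Module.finrank ℚ K = 2 →
  discr K = D → FullTwoPart K D.primeFactors.card

/-- The property `Holds D` together with `#Ш(E/K)[2^∞] ≤ 4 ^ T` for the quadratic field `K` of
discriminant `D`. -/
def Upto (T : ℝ) (D : ℕ) : Prop := ∀ (K : Type) [Field K] [NumberField K], Module.finrank ℚ K = 2 →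
  discr K = D → FullTwoPart K D.primeFactors.card ∧ (Nat.card (Sha2 K X15) : ℝ) ≤ (4 : ℝ) ^ T

/-- `log log X + y √(log log X)` -/
noncomputable def level (y : ℝ) (X : ℕ) : ℝ :=
  Real.log (Real.log X) + y * √(Real.log (Real.log X))

/-- the distribution function of the standard normal law -/
noncomputable def Phi (y : ℝ) : ℝ := (gaussianReal 0 1).real (Set.Iic y)

/-- The number of the `D ≤ X` of the family with the property `P`. -/
noncomputable def num (P : ℕ → Prop) (X : ℕ) : ℕ :=
  ((Finset.Icc 1 X).filter fun D => Family D ∧ P D).card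

/-- The constant `(1 - 1/2) (1 - 1/4) (1 - 1/8) ⋯`. -/
noncomputable def c₂ : ℝ := ∏' i : ℕ, (1 - (1 / 2 : ℝ) ^ (i + 1))

section proof

open Pool.Agent.H468.RQ
open Pool.Agent.H757_X15 (E15 WD)

lemma good_iff (D : ℕ) : IsGood D ↔ Pool.Agent.H757_X15.DD.Crit D := Iff.rfl

lemma omega_K {K : Type} [Field K] [NumberField K] (h1 : nrComplexPlaces K = 0)
    (h2 : nrRealPlaces K = 2) : Omega K X15 = Pool.Agent.Y700.Omega E15 ^ 2 := by
  unfold Omega
  rw [h1, h2, pow_zero, mul_one]
  congr 1
  exact omega_eq'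

/-- the main part -/
theorem main {D : ℕ} (hfam : Family D) (K : Type) [Field K] [NumberField K]
    (hK : Module.finrank ℚ K = 2) (hd : discr K = D) :
    (∀ v : HeightOneSpectrum (𝓞 K), MinimalAt X15 v) ∧
      {v : HeightOneSpectrum (𝓞 K) | c X15 v ≠ 1}.Finite ∧ Tam K X15 = 64 ∧
    ∃ (L : ℂ → ℂ) (y : ℕ), IsL K X15 L ∧
      16 * (L 1 * √(D : ℝ)) = (4 ^ D.primeFactors.card * (y : ℂ) ^ 2) * Omega K X15 ∧
      (Odd y ↔ IsGood D) ∧ (IsGood D ↔ FullTwoPart K D.primeFactors.card) ∧
      (IsGood D → Nat.card (base X15 K).toAffine.Point = 8) := by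
  have f2 : Fact (Nat.Prime 2) := ⟨Nat.prime_two⟩
  obtain ⟨hD, hF⟩ := hfam
  have hF' : Pool.Agent.H757_X15.DD.Fm D := hF
  have h1 : D ≠ 1 := by
    rintro rfl
    have h2 := NumberField.abs_discr_gt_two (K := K) (by rw [hK]; norm_num)
    rw [hd] at h2
    norm_num at h2
  have hDpos : 0 < D := Nat.pos_of_ne_zero hD.ne_zero
  obtain ⟨α, hα, hα2⟩ := Pool.Agent.Y159.QS.exists_sqrt hK
  rw [hd] at hα2
  obtain ⟨p1, p2⟩ := places K hK (by rw [hd]; exact_mod_cast hDpos)
  have hΩ := omega_K p1 p2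
  obtain ⟨L, hL1, hL2, y, hy, hodd⟩ := value_K hD hF' h1 K hK hα hα2
  obtain ⟨-, hΩ0⟩ := omega_rel (D := D) (Pool.Agent.H468.X15.fm_mod4 hF')
  have e15 : WD ((1 : ℕ) : ℤ) = E15 := WD_one
  rw [e15] at hy hΩ0
  have hTam : Tam K X15 = 64 := tamK hK hF' hα hα2 hd
  have hΔ : X15.Δ ≠ 0 := by
    have : X15.Δ = 50625 := E15_disc
    rw [this]; norm_num
  have hL : IsL K X15 L := ⟨hL1, hL2⟩
  have hval : 16 * (L 1 * √(D : ℝ)) = (4 ^ D.primeFactors.card * (y : ℂ) ^ 2) * Omega K X15 := by
    rw [hy, hΩ]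
    push_cast
    ring
  have hpts : Finite (base X15 K).toAffine.Point → Nat.card (base X15 K).toAffine.Point = 8 :=
    fun h => pts_K hD hF' h1 hα hα2 h
  have htors : Finite (base X15 K).toAffine.Point → Nat.card (tors K X15) = 8 := by
    intro h
    have h2 : tors K X15 = Set.univ := by
      ext P
      refine ⟨fun _ => trivial, fun _ => ?_⟩
      obtain ⟨n, hn, hn2⟩ := (isOfFinAddOrder_iff_nsmul_eq_zero).1 (isOfFinAddOrder_of_finite P)
      exact ⟨n, hn, hn2⟩
    rw [h2, Nat.card_congr (Equiv.Set.univ _)]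
    exact hpts h
  refine ⟨fun v => minK hF' hd v, Pool.Agent.R425.G.cv_fin X15 hΔ, hTam, L, y, hL, hval, hodd, ?_, ?_⟩
  swap
  · intro hC
    exact pts_good hD hF' h1 hC hα hα2
  have hdisc : √|(discr K : ℝ)| = √(D : ℝ) := by
    rw [hd]
    congr 1
    rw [Int.cast_natCast, Nat.abs_cast]
  have hΩ1 : (Omega K X15 : ℂ) ≠ 0 := by
    rw [hΩ]
    exact_mod_cast (pow_pos hΩ0 2).ne'
  have hk0 : (4 ^ D.primeFactors.card / 16 : ℚ) ≠ 0 := by positivity
  have hval' : L 1 * (√|(discr K : ℝ)| : ℝ) =
      ((4 ^ D.primeFactors.card / 16 * (y : ℚ) ^ 2 : ℚ) : ℂ) * Omega K X15 := by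
    rw [hdisc]
    push_cast
    linear_combination hval / 16
  have hcard : 16 * Nat.card (Sha2 K X15) = 4 ^ D.primeFactors.card →
      (Nat.card (Sha2 K X15) : ℚ) = 4 ^ D.primeFactors.card / 16 := by
    intro h
    have h2 : (16 : ℚ) * Nat.card (Sha2 K X15) = 4 ^ D.primeFactors.card := by exact_mod_cast h
    rw [← h2]; ring
  have hv : y ≠ 0 → padicValRat 2 (4 ^ D.primeFactors.card / 16 * (y : ℚ) ^ 2) =
      padicValRat 2 (4 ^ D.primeFactors.card / 16 : ℚ) + 2 * padicValNat 2 y := by
    intro h0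
    have h0' : (y : ℚ) ≠ 0 := by exact_mod_cast h0
    rw [padicValRat.mul hk0 (pow_ne_zero _ h0'), padicValRat.pow, padicValRat.of_nat]
    norm_num
  constructor
  · intro hC
    have hyo := hodd.2 hC
    have hy0 : y ≠ 0 := by
      rintro rfl
      exact absurd hyo (by decide)
    have hp8 : Nat.card (base X15 K).toAffine.Point = 8 := pts_good hD hF' h1 hC hα hα2
    have hfin : Finite (base X15 K).toAffine.Point :=
      Nat.finite_of_card_ne_zero (by rw [hp8]; norm_num)
    obtain ⟨s1, s2⟩ := sha_good hK hd hD hF' h1 hC hα hα2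
    have s2' : 16 * Nat.card (Sha2 K X15) = 4 ^ D.primeFactors.card := s2
    have hL0 : L 1 ≠ 0 := by
      intro h
      rw [h, zero_mul] at hval'
      rcases mul_eq_zero.1 hval'.symm with h2 | h2
      · have h3 : (4 ^ D.primeFactors.card / 16 * (y : ℚ) ^ 2 : ℚ) = 0 := by exact_mod_cast h2
        rcases mul_eq_zero.1 h3 with h4 | h4
        · exact hk0 h4
        · exact hy0 (by exact_mod_cast pow_eq_zero_iff (two_ne_zero) |>.1 h4)
      · exact hΩ1 h2
    refine ⟨⟨(Pool.Agent.R425.G.rank_iff X15 hΔ).2 hfin, ?_, L, hL, ?_, _, hval', ?_, ?_⟩, ?_, s2'⟩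
    · apply Set.finite_coe_iff.1
      apply Nat.finite_of_card_ne_zero
      intro h
      rw [h, mul_zero] at s2'
      exact (pow_ne_zero _ (by norm_num)) s2'.symm
    · exact analyticOrderAt_eq_zero.2 (Or.inr hL0)
    · exact mul_ne_zero hk0 (pow_ne_zero _ (by exact_mod_cast hy0))
    · rw [hv hy0, hcard s2', hTam, htors hfin, padicValNat.eq_zero_of_not_dvd
        (fun h => (Nat.not_even_iff_odd.2 hyo) (even_iff_two_dvd.2 h))]
      norm_num
    · rintro x ⟨n, hn⟩
      exact s1 n x hn
  · rintro ⟨⟨t1, t2, L', hL', -, r, hr, hr0, hvr⟩, -, hc⟩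
    have hfin : Finite (base X15 K).toAffine.Point := (Pool.Agent.R425.G.rank_iff X15 hΔ).1 t1
    have hLL : L' = L := Pool.Agent.R425.G.L_uniq (W := X15) (K := K) hL'.1 hL.1 hL'.2 hL.2
    rw [hLL, hval'] at hr
    have hrr : r = 4 ^ D.primeFactors.card / 16 * (y : ℚ) ^ 2 := by
      have h2 := mul_right_cancel₀ hΩ1 hr
      exact_mod_cast h2.symm
    have hy0 : y ≠ 0 := by
      rintro rfl
      apply hr0
      rw [hrr]
      norm_num
    rw [hrr, hv hy0, hcard hc, hTam, htors hfin] at hvr
    have h5 : (4 ^ D.primeFactors.card / 16 * ((64 : ℕ) : ℚ) / ((8 : ℕ) : ℚ) ^ 2) =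
        4 ^ D.primeFactors.card / 16 := by norm_num
    rw [h5] at hvr
    have h6 : padicValNat 2 y = 0 := by
      have h7 : (2 * padicValNat 2 y : ℤ) = 0 := by linarith
      omega
    apply hodd.1
    rw [← Nat.not_even_iff_odd]
    intro h7
    rcases padicValNat.eq_zero_iff.1 h6 with h8 | h8 | h8
    · norm_num at h8
    · exact hy0 h8
    · exact h8 h7.two_dvd

lemma holds_iff {D : ℕ} (hfam : Family D) (h1 : D ≠ 1) : Holds D ↔ IsGood D := by
  constructor
  · intro h
    obtain ⟨K, _, _, hK, hd⟩ := exists_K hfam.1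
      (Pool.Agent.H468.X15.fm_mod4 (show Pool.Agent.H757_X15.DD.Fm D from hfam.2)) h1
    obtain ⟨-, -, -, L, y, -, -, -, h2, -⟩ := main hfam K hK hd
    exact h2.2 (h K hK hd)
  · intro h K _ _ hK hd
    obtain ⟨-, -, -, L, y, -, -, -, h2, -⟩ := main hfam K hK hd
    exact h2.1 h

lemma upto_of {T : ℝ} {D : ℕ} (hfam : Family D) (h1 : D ≠ 1) (h : IsGood D)
    (hT : (D.primeFactors.card : ℝ) ≤ T) : Upto T D := by
  intro K _ _ hK hd
  have h2 : FullTwoPart K D.primeFactors.card := (holds_iff hfam h1).2 h K hK hd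
  refine ⟨h2, ?_⟩
  have h3 := h2.2.2
  have h6 : Nat.card (Sha2 K X15) ≤ 4 ^ D.primeFactors.card := by omega
  have h7 : (Nat.card (Sha2 K X15) : ℝ) ≤ (4 : ℝ) ^ D.primeFactors.card := by exact_mod_cast h6
  refine h7.trans ?_
  rw [← Real.rpow_natCast]
  exact Real.rpow_le_rpow_of_exponent_le (by norm_num) hT

lemma of_upto {T : ℝ} {D : ℕ} (hfam : Family D) (h1 : D ≠ 1) (h : Upto T D) :
    IsGood D ∧ (D.primeFactors.card : ℝ) ≤ T + 2 := by
  refine ⟨(holds_iff hfam h1).1 fun K _ _ hK hd => (h K hK hd).1, ?_⟩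
  obtain ⟨K, _, _, hK, hd⟩ := exists_K hfam.1
    (Pool.Agent.H468.X15.fm_mod4 (show Pool.Agent.H757_X15.DD.Fm D from hfam.2)) h1
  obtain ⟨h2, h3⟩ := h K hK hd
  have h5 : (4 : ℝ) ^ D.primeFactors.card = 16 * (Nat.card (Sha2 K X15) : ℝ) := by
    exact_mod_cast h2.2.2.symm
  have h7 : (4 : ℝ) ^ (D.primeFactors.card : ℝ) ≤ (4 : ℝ) ^ (T + 2) := by
    rw [Real.rpow_natCast, Real.rpow_add (by norm_num), show (4 : ℝ) ^ (2 : ℝ) = 16 by norm_num, h5]
    linarith
  exact (Real.rpow_le_rpow_left_iff (by norm_num)).1 h7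

lemma clt (y : ℝ) : Tendsto (fun X : ℕ => (num (Upto (level y X)) X : ℝ) /
    (num (fun _ => True) X : ℝ)) atTop (𝓝 (c₂ * Phi y)) := by
  have h := Pool.Agent.H468.WX.clt Pool.Agent.H468.WX.ef_om Pool.Agent.H468.WX.cf_om
    (F := Upto) (fun T D hD h1 hC hT => upto_of hD h1 hC hT) (fun T D hD h1 h => of_upto hD h1 h) y
  refine h.congr fun X => ?_
  unfold Pool.Agent.H468.WX.LM
  rw [one_mul]
  rfl

end proof

/-- **Main theorem.**  (1) Every `D ≠ 1` of the family is the discriminant of a quadratic field.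
(2) Let `K` be a quadratic field whose discriminant `D` is in the family, and let `k` be the number of
the prime divisors of `D`.  The equation of `X_0(15)` is minimal at all finite places of `K`, the
product of the Tamagawa numbers is `64`, the `L`-function over `K` is entire, and
`L(1) √D / Ω = 4^(k - 2) y²` for an integer `y`, which is odd if and only if `D` is good.  `D` is good if
and only if the `2`-part of the strong conjecture holds and the `2`-primary part of the Tate-Shafarevich
group is an elementary abelian group of order `4^(k - 2)`.  In this case there are eight points over `K`.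
(3) The numbers of the family have the density `5 / (16 π²)`, and the proportion of those for which
the `2`-part of the strong conjecture holds over the quadratic field of discriminant `D`, with the
`2`-primary part of the Tate-Shafarevich group elementary abelian of order `4^(k - 2)`, is exactly
`c₂ = 0.2887...`; with the further condition that this order is at most `4^(log log X + y √(log log X))`, it
is `c₂ Φ(y)`. -/
theorem result :
    (∀ D : ℕ, Family D → D ≠ 1 → ∃ (K : Type) (_ : Field K) (_ : NumberField K),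
      Module.finrank ℚ K = 2 ∧ discr K = D) ∧
    (∀ D : ℕ, Family D → ∀ (K : Type) [Field K] [NumberField K],
      Module.finrank ℚ K = 2 → discr K = D →
      (∀ v : HeightOneSpectrum (𝓞 K), MinimalAt X15 v) ∧
        {v : HeightOneSpectrum (𝓞 K) | c X15 v ≠ 1}.Finite ∧ Tam K X15 = 64 ∧
      ∃ (L : ℂ → ℂ) (y : ℕ), IsL K X15 L ∧
        16 * (L 1 * √(D : ℝ)) = (4 ^ D.primeFactors.card * (y : ℂ) ^ 2) * Omega K X15 ∧
        (Odd y ↔ IsGood D) ∧ (IsGood D ↔ FullTwoPart K D.primeFactors.card) ∧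
        (IsGood D → Nat.card (base X15 K).toAffine.Point = 8)) ∧
    (∀ D : ℕ, Family D → D ≠ 1 → (Holds D ↔ IsGood D)) ∧
    Tendsto (fun X : ℕ => (num (fun _ => True) X : ℝ) / X) atTop (𝓝 (5 / (16 * Real.pi ^ 2))) ∧
    Tendsto (fun X : ℕ => (num Holds X : ℝ) / (num (fun _ => True) X : ℝ)) atTop (𝓝 c₂) ∧
    (∀ y : ℝ, Tendsto (fun X : ℕ => (num (Upto (level y X)) X : ℝ) / (num (fun _ => True) X : ℝ))
      atTop (𝓝 (c₂ * Phi y))) ∧
    0.2887 < c₂ ∧ c₂ < 0.2888 := by
  refine ⟨fun D hD h1 => Pool.Agent.H468.RQ.exists_K hD.1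
      (Pool.Agent.H468.X15.fm_mod4 (show Pool.Agent.H757_X15.DD.Fm D from hD.2)) h1,
    fun D hD K _ _ hK hd => main hD K hK hd, fun D hD h1 => holds_iff hD h1,
    Pool.Agent.H468.X15.DX.dens, Pool.Agent.H468.X15.DX.prop_of
      (fun D hD h1 => (holds_iff hD h1).trans (good_iff D)), clt, Pool.Agent.H468.X15.DX.c_bounds.1,
    Pool.Agent.H468.X15.DX.c_bounds.2⟩

end Pool.Agent.Results.MP_9ab903_nt.RealQuadraticX15
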