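import Mathlib
import Pool.Agent.H463.QE.FinX

/-!
# The 2-part of the strong conjecture of Birch and Swinnerton-Dyer for the quadratic twists of
# `X₀(49)` over `ℚ(√-7)` by all `D ≡ 1 mod 4`

`K = ℚ(√-7)` with ring of integers `O = ℤ[a]`, `a² = a - 2`, so that `2 a - 1 = √-7`.  For `J ∈ O` put
`D = 1 + 4 J` and suppose that `√-7 D` is squarefree.  `E_D` is the quadratic twist by `D` of
`X₀(49) : y² + x y = x³ - x² - 2 x - 1`.  We prove, for all these `D`:

* `L(E_D/K, s)` is entire, and the quotient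
  `L(E_D/K, 1) √|disc K| #E_D(K)_tors² / (Ω ∏ c_v)` is integral at every valuation of `ℂ` above `2`;
* it is a unit at one (equivalently, at every) valuation above `2` if and only if `E_D(K)` is finite
  and the 2-primary part of `Ш(E_D/K)` is trivial, and if and only if an explicit matrix over
  `𝔽₂` made from the quadratic residue symbols between the prime divisors of `√-7 D` is invertible.

So the 2-part of the conjecture (finiteness of `E_D(K)`, triviality of `Ш(E_D/K)[2^∞]`, nonvanishing
of `L(E_D/K, 1)` and the 2-part of the formula) holds for `E_D` over `K` as soon as one of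
the two sides has no extra factor `2`.
-/

set_option autoImplicit false

namespace Pool.Agent.Results.MP_9ab903_nt.TwoPartX49Criterion

open NumberField IsDedekindDomain

/-- The quadratic twist `E_D : y² + x y = x³ - (1 + 3 J) x² - 2 D² x - D³` by `D = 1 + 4 J` of the curve
`X₀(49) : y² + x y = x³ - x² - 2 x - 1`. -/
noncomputable def curve {K : Type} [Field K] [NumberField K] (J : 𝓞 K) : WeierstrassCurve K :=
  ⟨1, -(1 + 3 * (J : K)), 0, -2 * (1 + 4 * (J : K)) ^ 2, -(1 + 4 * (J : K)) ^ 3⟩

open scoped Classical in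
/-- The equation `E` is minimal at every finite place `v`, and `c v` is the Tamagawa number of `E` at
`v`: the index in `E(K_v)` of the subgroup of the points of nonsingular reduction. -/
def IsTamagawa {K : Type} [Field K] [NumberField K] (E : WeierstrassCurve K)
    (c : HeightOneSpectrum (𝓞 K) → ℕ) : Prop :=
  (∀ v : HeightOneSpectrum (𝓞 K),
    (E.baseChange (v.adicCompletion K)).IsMinimal (v.adicCompletionIntegers K) ∧
    ∃ H : AddSubgroup (E.baseChange (v.adicCompletion K)).toAffine.Point,
      (∀ P, P ∈ H ↔ Pool.Agent.Y696.NonsingRed Valued.v (E.baseChange (v.adicCompletion K)) P) ∧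
      H.index = c v) ∧
  {v | c v ≠ 1}.Finite

/-- `Λ` is the lattice of periods of the differential `dx / (2y + a₁x + a₃)` of the curve `E`, embedded
in the complex numbers by `σ`. -/
def IsPeriodLattice {K : Type} [Field K] (E : WeierstrassCurve K) (σ : K →+* ℂ)
    (Λ : PeriodPair) : Prop :=
  Λ.g₂ = σ E.c₄ / 12 ∧ Λ.g₃ = σ E.c₆ / 216

/-- Twice the area of a fundamental parallelogram of the lattice. -/
noncomputable def period (Λ : PeriodPair) : ℝ := 2 * |((starRingEnd ℂ) Λ.ω₁ * Λ.ω₂).im|

/-- `L` is the entire continuation of the `L`-series of `E`. -/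
def IsLFunction {K : Type} [Field K] [NumberField K] (E : WeierstrassCurve K) (L : ℂ → ℂ) : Prop :=
  Differentiable ℂ L ∧ ∀ s : ℂ, 3 / 2 < s.re →
    LSeriesSummable ((fun n : ℤ => (n : ℂ)) ∘ E.LFunction) s ∧ L s = E.LSeries s

open scoped Classical in
/-- `L(E/K, 1) √|disc K| #E(K)_tors² / (Ω ∏ c_v)` for a curve `E` over an imaginary quadratic field
`K`: if the rank is `0`, the conjecture says that this is the order of `Ш(E/K)`. -/
noncomputable def quotient {K : Type} [Field K] [NumberField K] (E : WeierstrassCurve K)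
    (L : ℂ → ℂ) (c : HeightOneSpectrum (𝓞 K) → ℕ) (Λ : PeriodPair) : ℂ :=
  L 1 * (Real.sqrt |(discr K : ℝ)| : ℝ) *
    (Nat.card (AddCommGroup.torsion E.toAffine.Point) : ℂ) ^ 2 /
      ((period Λ : ℂ) * ((∏ᶠ v, c v : ℕ) : ℂ))

/-- `E(K)` is finite and the 2-primary part of `Ш(E/K)` is trivial. -/
def NoTwoPart {K : Type} [Field K] [NumberField K] (E : WeierstrassCurve K) : Prop :=
  Finite E.toAffine.Point ∧
    ∀ (n : ℕ) (x : Pool.Agent.TH841.NF.D.Sha E), 2 ^ n • x = 0 → x = 0

open scoped Classical in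
/-- `0` if `x` is a square modulo `p` and `1` if it is not. -/
noncomputable def symbol {R : Type} [CommRing R] (p x : R) : ZMod 2 :=
  if ∃ y : R, p ∣ y ^ 2 - x then 0 else 1

/-- `P` is the set of the prime divisors of `√-7 D` (one generator `≡ 1 mod a²` for each). -/
def IsPrimes {R : Type} [CommRing R] (a D : R) (P : Finset R) : Prop :=
  ∀ p : R, p ∈ P ↔ Prime p ∧ p ∣ (2 * a - 1) * D ∧ a ^ 2 ∣ p - 1

open scoped Classical in
/-- The matrix over `𝔽₂`, with rows and columns indexed by the primes: the entry at `(p, q)`, `p ≠ q`,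
is the symbol of `p` modulo `q`; the entry at `(p, p)` is the sum of the other entries of the row
and of the symbol of `-1` modulo `p`. -/
noncomputable def matrix {R : Type} [CommRing R] (P : Finset R) : Matrix P P (ZMod 2) :=
  Matrix.of fun p q => if p = q then symbol (p : R) (-1) + ∑ r ∈ P.erase (p : R), symbol r (p : R)
    else symbol (q : R) (p : R)

open scoped Classical in
/-- **Main theorem.**  Let `K` be a quadratic field that contains `a` with `a² = a - 2` (so
`K = ℚ(√-7)`), and let `J` be an integer of `K` such that `√-7 D`, `D = 1 + 4 J`, is squarefree.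
Then `L(E_D/K, s)` is entire, `quotient` is integral at all the valuations above `2`, and it is a
unit there if and only if `E_D(K)` is finite and `Ш(E_D/K)[2^∞] = 0`, if and only if the matrix is
invertible. If this is so, then `L(E_D/K, 1) ≠ 0` and the torsion subgroup in the quotient is
`E_D(K)`.  For every `k ≥ 1` there are infinitely many such `D` with exactly `k` prime factors and
invertible matrix. -/
theorem result (K : Type) [Field K] [NumberField K] (hK : Module.finrank ℚ K = 2) (a : 𝓞 K)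
    (ha : a ^ 2 = a - 2) :
    (∀ J : 𝓞 K, Squarefree ((2 * a - 1) * (1 + 4 * J)) →
      (∃! P : Finset (𝓞 K), IsPrimes a (1 + 4 * J) P) ∧
      ∃ (L : ℂ → ℂ) (c : HeightOneSpectrum (𝓞 K) → ℕ),
        IsLFunction (curve J) L ∧ IsTamagawa (curve J) c ∧
        (NoTwoPart (curve J) → L 1 ≠ 0 ∧
          Nat.card (AddCommGroup.torsion (curve J).toAffine.Point) =
            Nat.card (curve J).toAffine.Point) ∧
        (∀ P : Finset (𝓞 K), IsPrimes a (1 + 4 * J) P →
          (NoTwoPart (curve J) ↔ (matrix P).det ≠ 0)) ∧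
        ∀ σ : K →+* ℂ, (∃ Λ : PeriodPair, IsPeriodLattice (curve J) σ Λ) ∧
          ∀ Λ : PeriodPair, IsPeriodLattice (curve J) σ Λ →
            ∀ (Γ : Type) [LinearOrderedCommGroupWithZero Γ] (w : Valuation ℂ Γ), w 2 < 1 →
              w (quotient (curve J) L c Λ) ≤ 1 ∧
              (w (quotient (curve J) L c Λ) = 1 ↔ NoTwoPart (curve J))) ∧
    ∀ k : ℕ, 1 ≤ k → {J : 𝓞 K | Squarefree ((2 * a - 1) * (1 + 4 * J)) ∧
      ∃ P : Finset (𝓞 K), IsPrimes a (1 + 4 * J) P ∧ P.card = k + 1 ∧
        (matrix P).det ≠ 0}.Infinite := by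
  obtain ⟨e, hea, hem⟩ := Pool.Agent.H463.QE.exists_e hK ha
  refine ⟨fun J hsq => ?_, fun k hk => ?_⟩
  · obtain ⟨J', rfl⟩ := e.surjective J
    obtain ⟨h1, h2⟩ := Pool.Agent.H463.QE.finalX e hea hsq
    obtain ⟨h3, L, h4, h5, h6⟩ := h2
    have hcr : curve (e J') = Pool.Agent.Y698.EX K (Pool.Agent.R426.QC.em e J') := rfl
    obtain ⟨h7, h8⟩ := Pool.Agent.H463.QE.tamX e hea hsq
    refine ⟨h1, L, Pool.Agent.R426.QC.cE e (1 + 4 * J'), ⟨h4, h5⟩, ⟨fun v => h7 v, h8⟩,
      fun hN => ⟨?_, ?_⟩, fun P hP => ?_, fun σ => ⟨?_, ?_⟩⟩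
    · exact Pool.Agent.H463.QE.ne_zeroX e hea hsq h6 hN
    · rw [hcr]
      exact Pool.Agent.H463.QE.card_tors_fin hN.1
    · exact h3 P hP
    · exact Pool.Agent.H463.QE.perX e hea hsq σ
    · intro Λ hΛ Γ _ w hw
      exact h6 σ Λ hΛ.1 hΛ.2 Γ w hw
  · exact Pool.Agent.H463.QE.infX e hea k hk

end Pool.Agent.Results.MP_9ab903_nt.TwoPartX49Criterion
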